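import Pool.Agent.Helper37.ETC.Defs

/-!
# Approximation for valuation rings (blocks V1-V5 of the Elementary Type Conjecture project)
-/

set_option autoImplicit false

namespace Pool.Helper37.ETC

section Val

variable {F : Type*} [Field F]

/-- an element of a valuation ring whose multiplication maps `O` to `Q`. -/
theorem v_exists_not_mem (O Q : ValuationSubring F) (h : O ⊔ Q = ⊤) (hQ : Q ≠ ⊤) {e : F}
    (he : e ≠ 0) : ∃ y ∈ O, e * y ∉ Q := by
  by_contra hcon
  push Not at hcon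
  -- the set of all `x` with `x O ⊆ Q`
  let R : ValuationSubring F :=
    { carrier := {s | ∀ x : F, (∀ y ∈ O, x * y ∈ Q) → ∀ y ∈ O, (s * x) * y ∈ Q}
      mul_mem' := by
        intro a b ha hb x hx
        have h1 := ha (b * x) (hb x hx)
        intro y hy
        have := h1 y hy
        rwa [← mul_assoc] at this
      one_mem' := by
        intro x hx y hy
        rw [one_mul]
        exact hx y hy
      add_mem' := by
        intro a b ha hb x hx y hy
        have h1 := ha x hx y hy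
        have h2 := hb x hx y hy
        have : (a + b) * x * y = a * x * y + b * x * y := by ring
        rw [this]
        exact Q.add_mem _ _ h1 h2
      zero_mem' := by
        intro x hx y hy
        rw [zero_mul, zero_mul]
        exact Q.zero_mem
      neg_mem' := by
        intro a ha x hx y hy
        have h1 := ha x hx y hy
        have : -a * x * y = -(a * x * y) := by ring
        rw [this]
        exact Q.neg_mem _ h1
      mem_or_inv_mem' := by
        intro a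
        rcases O.mem_or_inv_mem a with h1 | h1
        · left
          intro x hx y hy
          have := hx (a * y) (O.mul_mem _ _ h1 hy)
          have e2 : a * x * y = x * (a * y) := by ring
          rw [e2]
          exact this
        · right
          intro x hx y hy
          have := hx (a⁻¹ * y) (O.mul_mem _ _ h1 hy)
          have e2 : a⁻¹ * x * y = x * (a⁻¹ * y) := by ring
          rw [e2]
          exact this }
  have hOR : O ≤ R := by
    intro a ha x hx y hy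
    have := hx (a * y) (O.mul_mem _ _ ha hy)
    have e2 : a * x * y = x * (a * y) := by ring
    rw [e2]
    exact this
  have hQR : Q ≤ R := by
    intro a ha x hx y hy
    have := Q.mul_mem _ _ ha (hx y hy)
    rw [mul_assoc]
    exact this
  have hR : R = ⊤ := by
    rw [← top_le_iff, ← h]
    exact sup_le hOR hQR
  apply hQ
  rw [← top_le_iff]
  intro z _
  have hz : z * e⁻¹ ∈ R := by
    rw [hR]
    exact ValuationSubring.mem_top _
  have := hz e hcon 1 O.one_mem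
  rwa [mul_one, inv_mul_cancel_right₀ he] at this

/-- V1 (independent valuation rings, `n = 1` of V2) -/
theorem exists_large_one (O Q : ValuationSubring F) (h : O ⊔ Q = ⊤) (hO : O ≠ ⊤) (hQ : Q ≠ ⊤)
    {c d : F} (hc : c ≠ 0) (hd : d ≠ 0) :
    ∃ x : F, x ≠ 0 ∧ (∃ t ∈ O, x⁻¹ = c * t) ∧ ∃ t ∈ Q, x = d * t := by
  obtain ⟨y, hy, hy2⟩ := v_exists_not_mem Q O (by rw [sup_comm]; exact h) hO (mul_ne_zero hc hd)
  have hy0 : y ≠ 0 := by
    rintro rfl
    apply hy2
    rw [mul_zero]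
    exact O.zero_mem
  refine ⟨d * y, mul_ne_zero hd hy0, ⟨(c * d * y)⁻¹, ?_, ?_⟩, y, hy, rfl⟩
  · exact (O.mem_or_inv_mem _).resolve_left hy2
  · field_simp

theorem v_inv_one_add {y : F} (hy : y ≠ 0) : (1 + y⁻¹)⁻¹ = y * (1 + y)⁻¹ := by
  have h : 1 + y⁻¹ = (1 + y) * y⁻¹ := by
    rw [add_mul, one_mul, mul_inv_cancel₀ hy, add_comm]
  rw [h, mul_inv, inv_inv, mul_comm]

/-- small constants. -/
theorem v_exists_small (Q : ValuationSubring F) (hQ : Q ≠ ⊤) {d : F} (hd : d ≠ 0) :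
    ∃ e : F, e ≠ 0 ∧ ∀ t ∈ Q, (∃ s ∈ Q, e * t = d * s) ∧ 1 + e * t ≠ 0 ∧ (1 + e * t)⁻¹ ∈ Q := by
  obtain ⟨u, hu⟩ : ∃ u : F, u ∉ Q := by
    by_contra hcon
    push Not at hcon
    exact hQ (by rw [← top_le_iff]; intro z _; exact hcon z)
  have hu0 : u ≠ 0 := by
    rintro rfl
    exact hu Q.zero_mem
  have hui : u⁻¹ ∈ Q := (Q.mem_or_inv_mem u).resolve_left hu
  -- `u⁻¹` times an element of `Q` is in the maximal ideal
  have key : ∀ t ∈ Q, 1 + u⁻¹ * t ≠ 0 ∧ (1 + u⁻¹ * t)⁻¹ ∈ Q := by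
    intro t ht
    have h1 : 1 + u⁻¹ * t ≠ 0 := by
      intro h0
      apply hu
      have : u = - t := by
        field_simp at h0
        linear_combination h0
      rw [this]
      exact Q.neg_mem _ ht
    refine ⟨h1, ?_⟩
    rcases Q.mem_or_inv_mem (u⁻¹ * t / (1 + u⁻¹ * t)) with h2 | h2
    · have e1 : (1 + u⁻¹ * t)⁻¹ = 1 - u⁻¹ * t / (1 + u⁻¹ * t) := by
        rw [eq_sub_iff_add_eq, inv_eq_one_div, ← add_div, div_self h1]
      rw [e1]
      exact Q.sub_mem Q.one_mem h2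
    · by_cases ht0 : t = 0
      · rw [ht0, mul_zero, add_zero, inv_one]
        exact Q.one_mem
      · exfalso
        apply hu
        have e1 : u = t * ((u⁻¹ * t / (1 + u⁻¹ * t))⁻¹ - 1) := by
          field_simp
          ring
        rw [e1]
        exact Q.mul_mem _ _ ht (Q.sub_mem h2 Q.one_mem)
  rcases Q.mem_or_inv_mem d with h1 | h1
  · refine ⟨d * u⁻¹, mul_ne_zero hd (inv_ne_zero hu0), fun t ht => ⟨⟨u⁻¹ * t, ?_, ?_⟩, ?_⟩⟩
    · exact Q.mul_mem _ _ hui ht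
    · ring
    · have e1 : d * u⁻¹ * t = u⁻¹ * (d * t) := by ring
      rw [e1]
      exact key _ (Q.mul_mem _ _ h1 ht)
  · refine ⟨u⁻¹, inv_ne_zero hu0, fun t ht => ⟨⟨d⁻¹ * (u⁻¹ * t), ?_, ?_⟩, key t ht⟩⟩
    · exact Q.mul_mem _ _ h1 (Q.mul_mem _ _ hui ht)
    · rw [mul_inv_cancel_left₀ hd]

/-- V2 for finite sets of indices -/
theorem exists_large_finset {ι : Type*} (O : ValuationSubring F) (hO : O ≠ ⊤)
    (Q : ι → ValuationSubring F) {d : ι → F} (s : Finset ι) :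
    (∀ i ∈ s, O ⊔ Q i = ⊤) → (∀ i ∈ s, Q i ≠ ⊤) → (∀ i ∈ s, d i ≠ 0) → ∀ {c : F}, c ≠ 0 →
    ∃ x : F, x ≠ 0 ∧ (∃ t ∈ O, x⁻¹ = c * t) ∧ ∀ i ∈ s, ∃ t ∈ Q i, x = d i * t := by
  classical
  induction s using Finset.induction_on generalizing d with
  | empty =>
    intro _ _ _ c hc
    exact ⟨c⁻¹, inv_ne_zero hc, ⟨1, O.one_mem, by rw [inv_inv, mul_one]⟩, by simp⟩
  | insert a s ha ih =>
    intro h hQ hd c hc
    obtain ⟨z, hz0, ⟨z1, hz1, hz2⟩, z3, hz3, hz4⟩ := exists_large_one O (Q a)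
      (h a (Finset.mem_insert_self a s)) hO (hQ a (Finset.mem_insert_self a s)) hc
      (hd a (Finset.mem_insert_self a s))
    -- small constants at the other rings
    have hsm : ∀ i, ∃ e : F, i ∈ s → e ≠ 0 ∧ ∀ t ∈ Q i,
        (∃ r ∈ Q i, e * t = (d i * z⁻¹) * r) ∧ 1 + e * t ≠ 0 ∧ (1 + e * t)⁻¹ ∈ Q i := by
      intro i
      by_cases hi : i ∈ s
      · obtain ⟨e, he⟩ := v_exists_small (Q i) (hQ i (Finset.mem_insert_of_mem hi))
          (mul_ne_zero (hd i (Finset.mem_insert_of_mem hi)) (inv_ne_zero hz0))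
        exact ⟨e, fun _ => he⟩
      · exact ⟨0, fun h => absurd h hi⟩
    choose e he using hsm
    obtain ⟨c', hc', hc'2⟩ := v_exists_small O hO (one_ne_zero (α := F))
    obtain ⟨y, hy0, ⟨y1, hy1, hy2⟩, hy3⟩ := ih (d := e)
      (fun i hi => h i (Finset.mem_insert_of_mem hi))
      (fun i hi => hQ i (Finset.mem_insert_of_mem hi)) (fun i hi => (he i hi).1) hc'
    by_cases hya : y ∈ Q a
    · refine ⟨y * z, mul_ne_zero hy0 hz0, ⟨y⁻¹ * z1, ?_, ?_⟩, ?_⟩
      · obtain ⟨⟨r, hr, hr2⟩, -⟩ := hc'2 y1 hy1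
        rw [hy2, hr2, one_mul]
        exact O.mul_mem _ _ hr hz1
      · rw [mul_inv, hz2]
        ring
      · intro i hi
        rcases Finset.mem_insert.1 hi with rfl | hi
        · exact ⟨y * z3, (Q i).mul_mem _ _ hya hz3, by rw [hz4]; ring⟩
        · obtain ⟨t, ht, ht2⟩ := hy3 i hi
          obtain ⟨⟨r, hr, hr2⟩, -⟩ := (he i hi).2 t ht
          refine ⟨r, hr, ?_⟩
          rw [ht2, hr2]
          field_simp
    · have hyi : y⁻¹ ∈ Q a := ((Q a).mem_or_inv_mem y).resolve_left hya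
      have hy1' : 1 + y⁻¹ ≠ 0 := by
        intro h0
        apply hya
        have : y = -1 := by
          field_simp at h0
          linear_combination h0
        rw [this]
        exact (Q a).neg_mem _ (Q a).one_mem
      have h1y : 1 + y ≠ 0 := by
        intro h0
        apply hy1'
        field_simp
        linear_combination h0
      -- `(1 + y⁻¹)⁻¹ ∈ Q a`
      have hunit : (1 + y⁻¹)⁻¹ ∈ Q a := by
        have hw : (1 + y)⁻¹ ∈ Q a := by
          refine ((Q a).mem_or_inv_mem (1 + y)).resolve_left fun h4 => hya ?_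
          have := (Q a).sub_mem h4 (Q a).one_mem
          rwa [add_sub_cancel_left] at this
        have e1 : (1 + y⁻¹)⁻¹ = 1 - (1 + y)⁻¹ := by
          rw [v_inv_one_add hy0]
          linear_combination mul_inv_cancel₀ h1y
        rw [e1]
        exact (Q a).sub_mem (Q a).one_mem hw
      refine ⟨z * (1 + y⁻¹)⁻¹, mul_ne_zero hz0 (inv_ne_zero hy1'), ⟨z1 * (1 + y⁻¹), ?_, ?_⟩, ?_⟩
      · refine O.mul_mem _ _ hz1 (O.add_mem _ _ O.one_mem ?_)
        obtain ⟨⟨r, hr, hr2⟩, -⟩ := hc'2 y1 hy1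
        rw [hy2, hr2, one_mul]
        exact hr
      · rw [mul_inv, inv_inv, hz2]
        ring
      · intro i hi
        rcases Finset.mem_insert.1 hi with rfl | hi
        · exact ⟨z3 * (1 + y⁻¹)⁻¹, (Q i).mul_mem _ _ hz3 hunit, by rw [hz4]; ring⟩
        · obtain ⟨t, ht, ht2⟩ := hy3 i hi
          obtain ⟨⟨r, hr, hr2⟩, hr3, hr4⟩ := (he i hi).2 t ht
          refine ⟨r * (1 + y)⁻¹, (Q i).mul_mem _ _ hr ?_, ?_⟩
          · rw [ht2]
            exact hr4
          · have e1 : z * (1 + y⁻¹)⁻¹ = z * y * (1 + y)⁻¹ := by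
              rw [v_inv_one_add hy0, mul_assoc]
            have e2 : z * y = d i * r := by
              rw [ht2, hr2]
              field_simp
            rw [e1, e2, mul_assoc]

/-- V2 -/
theorem exists_large (O : ValuationSubring F) {n : ℕ} (Q : Fin n → ValuationSubring F)
    (h : ∀ i, O ⊔ Q i = ⊤) (hO : O ≠ ⊤) (hQ : ∀ i, Q i ≠ ⊤) {c : F} (hc : c ≠ 0)
    {d : Fin n → F} (hd : ∀ i, d i ≠ 0) :
    ∃ x : F, x ≠ 0 ∧ (∃ t ∈ O, x⁻¹ = c * t) ∧ ∀ i, ∃ t ∈ Q i, x = d i * t := by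
  obtain ⟨x, h1, h2, h3⟩ := exists_large_finset O hO Q (d := d) Finset.univ (fun i _ => h i)
    (fun i _ => hQ i) (fun i _ => hd i) hc
  exact ⟨x, h1, h2, fun i => h3 i (Finset.mem_univ i)⟩

/-- V3 (weak approximation) -/
theorem weak_approx {n : ℕ} (Q : Fin n → ValuationSubring F) (hQ : ∀ i, Q i ≠ ⊤)
    (h : ∀ i j, i ≠ j → Q i ⊔ Q j = ⊤) (a : Fin n → F) {d : Fin n → F} (hd : ∀ i, d i ≠ 0) :
    ∃ x : F, ∀ i, ∃ t ∈ Q i, x = a i + d i * t := by
  classical
  -- `f i j` is so small that `a i * f i j` is in `d j Q j`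
  have hf : ∀ i j : Fin n, ∃ f : F, f ≠ 0 ∧ ∀ t ∈ Q j,
      (∃ s ∈ Q j, a i * (f * t) = d j * s) ∧ 1 + f * t ≠ 0 ∧ (1 + f * t)⁻¹ ∈ Q j := by
    intro i j
    by_cases ha : a i = 0
    · obtain ⟨e, he, he2⟩ := v_exists_small (Q j) (hQ j) (one_ne_zero (α := F))
      refine ⟨e, he, fun t ht => ⟨⟨0, (Q j).zero_mem, by rw [ha]; ring⟩, (he2 t ht).2⟩⟩
    · obtain ⟨e, he, he2⟩ := v_exists_small (Q j) (hQ j) (div_ne_zero (hd j) ha)
      refine ⟨e, he, fun t ht => ⟨?_, (he2 t ht).2⟩⟩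
      obtain ⟨s, hs, hs2⟩ := (he2 t ht).1
      refine ⟨s, hs, ?_⟩
      rw [hs2]
      field_simp
  choose f hf0 hf1 using hf
  have hx : ∀ i : Fin n, ∃ e : F, (∃ s ∈ Q i, a i * (e - 1) = d i * s) ∧
      ∀ j, j ≠ i → ∃ s ∈ Q j, a i * e = d j * s := by
    intro i
    obtain ⟨x, hx0, ⟨t, ht, ht2⟩, hx3⟩ := exists_large_finset (Q i) (hQ i) Q (d := f i)
      (Finset.univ.erase i) (fun j hj => h i j (Finset.ne_of_mem_erase hj).symm)
      (fun j _ => hQ j) (fun j _ => hf0 i j) (hf0 i i)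
    refine ⟨x * (1 + x)⁻¹, ?_, ?_⟩
    · obtain ⟨⟨s, hs, hs2⟩, hs3, hs4⟩ := hf1 i i t ht
      refine ⟨-(s * (1 + x⁻¹)⁻¹), (Q i).neg_mem _ ((Q i).mul_mem _ _ hs ?_), ?_⟩
      · rw [ht2]
        exact hs4
      · rw [← ht2] at hs2 hs3
        have h1x : 1 + x ≠ 0 := by
          intro h0
          apply hs3
          field_simp
          linear_combination h0
        have e1 : x * (1 + x)⁻¹ - 1 = - (x⁻¹ * (1 + x⁻¹)⁻¹) := by
          rw [v_inv_one_add hx0, inv_mul_cancel_left₀ hx0]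
          linear_combination mul_inv_cancel₀ h1x
        rw [e1]
        have e2 : a i * (-(x⁻¹ * (1 + x⁻¹)⁻¹)) = - ((a i * x⁻¹) * (1 + x⁻¹)⁻¹) := by ring
        rw [e2, hs2]
        ring
    · intro j hj
      obtain ⟨t', ht', ht'2⟩ := hx3 j (Finset.mem_erase.2 ⟨hj, Finset.mem_univ j⟩)
      obtain ⟨⟨s, hs, hs2⟩, hs3, hs4⟩ := hf1 i j t' ht'
      rw [← ht'2] at hs2 hs3 hs4
      exact ⟨s * (1 + x)⁻¹, (Q j).mul_mem _ _ hs hs4, by rw [← mul_assoc, hs2, mul_assoc]⟩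
  choose e he1 he2 using hx
  refine ⟨∑ i, a i * e i, fun j => ?_⟩
  obtain ⟨s, hs, hs2⟩ := he1 j
  have hrest : ∃ r ∈ Q j, ∑ i ∈ Finset.univ.erase j, a i * e i = d j * r := by
    have : ∀ i, ∃ r : F, i ≠ j → r ∈ Q j ∧ a i * e i = d j * r := by
      intro i
      by_cases hij : i = j
      · exact ⟨0, fun h => absurd hij h⟩
      · obtain ⟨r, hr, hr2⟩ := he2 i j (Ne.symm hij)
        exact ⟨r, fun _ => ⟨hr, hr2⟩⟩
    choose r hr using this
    refine ⟨∑ i ∈ Finset.univ.erase j, r i, ?_, ?_⟩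
    · exact (Q j).toSubring.sum_mem fun i hi => (hr i (Finset.ne_of_mem_erase hi)).1
    · rw [Finset.mul_sum]
      exact Finset.sum_congr rfl fun i hi => (hr i (Finset.ne_of_mem_erase hi)).2
  obtain ⟨r, hr, hr2⟩ := hrest
  refine ⟨s + r, (Q j).add_mem _ _ hs hr, ?_⟩
  rw [← Finset.add_sum_erase _ _ (Finset.mem_univ j), hr2]
  linear_combination hs2

/-- V4 (dependent rings have the same topology) -/
theorem dep_bdd (A B : ValuationSubring F) (h : A ⊔ B ≠ ⊤) :
    ∃ c : F, c ≠ 0 ∧ ∀ x ∈ A, c * x ∈ B := by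
  obtain ⟨u, hu⟩ : ∃ u : F, u ∉ A ⊔ B := by
    by_contra hcon
    push Not at hcon
    exact h (by rw [← top_le_iff]; intro z _; exact hcon z)
  have hu0 : u ≠ 0 := by
    rintro rfl
    exact hu (A ⊔ B).zero_mem
  refine ⟨u⁻¹, inv_ne_zero hu0, fun x hx => ?_⟩
  by_contra hcon
  have h1 : (u⁻¹ * x)⁻¹ ∈ B := (B.mem_or_inv_mem _).resolve_left hcon
  have hx0 : x ≠ 0 := by
    rintro rfl
    apply hcon
    rw [mul_zero]
    exact B.zero_mem
  apply hu
  have e1 : u = x * (u⁻¹ * x)⁻¹ := by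
    field_simp
  rw [e1]
  exact (A ⊔ B).mul_mem _ _ ((le_sup_left : A ≤ A ⊔ B) hx) ((le_sup_right : B ≤ A ⊔ B) h1)

/-- overrings of a valuation ring are comparable. -/
theorem v_le_or_le (B S T : ValuationSubring F) (hS : B ≤ S) (hT : B ≤ T) : S ≤ T ∨ T ≤ S := by
  by_contra hcon
  push Not at hcon
  obtain ⟨h1, h2⟩ := hcon
  obtain ⟨x, hx, hx2⟩ := SetLike.not_le_iff_exists.1 h1
  obtain ⟨y, hy, hy2⟩ := SetLike.not_le_iff_exists.1 h2
  have hx0 : x ≠ 0 := by
    rintro rfl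
    exact hx2 T.zero_mem
  have hy0 : y ≠ 0 := by
    rintro rfl
    exact hy2 S.zero_mem
  rcases B.mem_or_inv_mem (x / y) with h3 | h3
  · apply hx2
    have := T.mul_mem _ _ (hT h3) hy
    rwa [div_mul_cancel₀ _ hy0] at this
  · apply hy2
    rw [inv_div] at h3
    have := S.mul_mem _ _ (hS h3) hx
    rwa [div_mul_cancel₀ _ hx0] at this

/-- V5 -/
theorem dep_trans (A B C : ValuationSubring F) (h : A ⊔ B ≠ ⊤) (h' : B ⊔ C ≠ ⊤) :
    A ⊔ C ≠ ⊤ := by
  intro hcon
  rcases v_le_or_le B (A ⊔ B) (B ⊔ C) le_sup_right le_sup_left with h1 | h1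
  · apply h'
    rw [← top_le_iff, ← hcon]
    exact sup_le (le_sup_left.trans h1) le_sup_right
  · apply h
    rw [← top_le_iff, ← hcon]
    exact sup_le le_sup_left (le_sup_right.trans h1)

end Val

end Pool.Helper37.ETC
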